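import Pool.Agent.Results.MP_03ef3d_ag.RandomCompleteIntersections
import Pool.Agent.X67.GD.Poly

/-!
# The Hasse principle for ALL complete intersections near generic dilates, of all Fano types at once

Let `L_k` be real numbers (for example `L_k = k`). There are numbers `g_k` such that for every sequence `v_k ≥ g_k`, ALL
types `(d_1, …, d_s)`, `n` with `d_j ≥ 2`, `d_1 + ⋯ + d_s ≤ n` and `n ≥ 3` (the types of the Fano complete intersections
of dimension at least two in `ℙⁿ`) and almost all real systems `α` of forms of these degrees (given by their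
coefficients): for all large `k` the Hasse principle holds for ALL the intersections `f_1 = ⋯ = f_s = 0` in `ℙⁿ` with
integral forms `f_j` of degree `d_j` whose coefficients differ from those of `v_k α` by at most `L_k`: if there are points
over the real numbers and over all the `p`-adic fields, then there is a rational point. (No smoothness is assumed.)

In the starting result `RandomCompleteIntersections` the Hasse principle holds for 100% of the smooth complete
intersections with coefficients bounded by `H`; the exceptions could contain members of each of the cubes. For `L_k → ∞`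
the cubes contain systems in all residue classes modulo any given number. Proof: Borel-Cantelli.
-/

set_option autoImplicit false

namespace Pool.Agent.Results.MP_03ef3d_ag.GenericDilates

open Filter MeasureTheory Finset
open Pool.Agent.X67.GD (AllNear DensityOne Coef system mons)
open RandomCompleteIntersections (LocallySoluble HasRationalPoint)

/-- the types `(s, n, d)` of the Fano complete intersections of dimension at least two -/
abbrev FanoType : Type :=
  {x : (Σ s : ℕ, ℕ × (Fin s → ℕ)) // 1 ≤ x.1 ∧ (∀ j, 2 ≤ x.2.2 j) ∧ ∑ j, x.2.2 j ≤ x.2.1 ∧ 3 ≤ x.2.1}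

theorem density (s n : ℕ) (d : Fin s → ℕ) (hs : 1 ≤ s) (hd : ∀ j, 2 ≤ d j) (hdn : ∑ j, d j ≤ n) (hn : 3 ≤ n) :
    DensityOne (fun w : Coef (fun j => mons n (d j)) → ℤ =>
      LocallySoluble (system (fun j => mons n (d j)) w) → HasRationalPoint (system (fun j => mons n (d j)) w)) := by
  obtain ⟨e, he⟩ : ∃ e : Fin s → ℕ, ∀ j, d j = e j + 2 :=
    ⟨fun j => d j - 2, fun j => by have := hd j; dsimp only; omega⟩
  obtain rfl : d = fun j => e j + 2 := funext he
  obtain ⟨h1, h2⟩ := Pool.Agent.Y716.D.dims hs hn hdn
  refine Pool.Agent.X67.GD.densityOne_of_ratio (system fun j => mons n (e j + 2)) (Pool.Agent.X67.GD.system_injective _)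
    (fun H => {f : Fin s → MvPolynomial (Fin (n + 1)) ℤ | ∀ j, (f j).IsHomogeneous (e j + 2) ∧
      ∀ m, |(f j).coeff m| ≤ (H : ℤ)}) (fun H => Pool.Agent.X67.GD.systems_eq _ H) (fun _ f => HasRationalPoint f)
    HasRationalPoint LocallySoluble ?_ (Eventually.of_forall fun _ f _ hf => hf)
    (Pool.Agent.Y716.D.hp_all (Fin (n + 1)) hs h1 e h2)
  intro H f hf h
  exact Pool.Agent.Y487.C8.sol_elsS ((Pool.Agent.Y487.C8.solQ_iffS fun j => (hf j).1).mp h)

/-- **Theorem.** Let `L_k` be real numbers. There are numbers `g_k` such that for every sequence `v` with `v_k ≥ g_k` for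
all large `k`, ALL types `(s, n, d)` with `s ≥ 1`, `d_j ≥ 2`, `d_1 + ⋯ + d_s ≤ n`, `n ≥ 3` and almost all real
coefficient vectors `α` of systems of this type: for all large `k`, for ALL integral systems `f` of this type whose
coefficients differ from those of `v_k α` by at most `L_k`, the intersection `f = 0` in `ℙⁿ` has a rational point if it
has points over the real numbers and over all the `p`-adic fields. -/
theorem result (L : ℕ → ℝ) : ∃ g : ℕ → ℝ, ∀ v : ℕ → ℝ, (∀ᶠ k in atTop, g k ≤ v k) →
    ∀ (s n : ℕ) (d : Fin s → ℕ), 1 ≤ s → (∀ j, 2 ≤ d j) → ∑ j, d j ≤ n → 3 ≤ n →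
      ∀ᵐ α : Coef (fun j => mons n (d j)) → ℝ,
        AllNear (fun w => LocallySoluble (system (fun j => mons n (d j)) w) →
          HasRationalPoint (system (fun j => mons n (d j)) w)) L v α := by
  obtain ⟨g, hg⟩ := Pool.Agent.X67.GD.exists_gauge_all (ι := FanoType)
    (fun x => Coef (fun j => mons x.1.2.1 (x.1.2.2 j)))
    (fun x w => LocallySoluble (system (fun j => mons x.1.2.1 (x.1.2.2 j)) w) →
      HasRationalPoint (system (fun j => mons x.1.2.1 (x.1.2.2 j)) w))
    (fun x => density x.1.1 x.1.2.1 x.1.2.2 x.2.1 x.2.2.1 x.2.2.2.1 x.2.2.2.2) L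
  exact ⟨g, fun v hv s n d hs hd hdn hn => hg v hv ⟨⟨s, n, d⟩, hs, hd, hdn, hn⟩⟩

end Pool.Agent.Results.MP_03ef3d_ag.GenericDilates
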