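import Pool.Agent.Results.MP_83e36b_nt.SparseQuadraticTwists
import Pool.Agent.Results.MP_03ef3d_ag.FanoDoubleCovers

/-!
# The Hasse principle for 100% of the twists by `± ⌊α j ^ c⌋` of Fano double covers of `ℙⁿ × ℙ¹`

Let `F(x; u, v) = A(x) u² + B(x) u v + D(x) v²` be a form of bidegree `(2 d, 2)` with integral
coefficients such that the divisor `F = 0` in `ℙⁿ × ℙ¹` is smooth. The double covers
`X_a : w² = a F(x; u, v)` are smooth, of dimension `n + 1`; they are Fano varieties for `d ≤ n`,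
for example the Fano threefolds of types 2.18 and 2.2 for `n = 2` and `d = 1, 2`.

Let `c > 1`. There is a set `E` of real numbers of Hausdorff dimension less than `1`, such that for
all `α > 0` outside `E`, all `n`, all `d` and all these forms at once: a positive proportion of the
twists `X_a` by the squarefree numbers `a = ± ⌊α j ^ c⌋`, `j ≤ N`, have points everywhere locally,
and 100% of these `X_a` have a rational point. From Mathlib: `dimH`: the Hausdorff dimension.
`count c α P N` (of the team's `SparseQuadraticTwists`) is the number of the pairs `(j, s)`,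
`j ≤ N`, `s = ± 1`, such that `⌊α j ^ c⌋` is squarefree and `P (s ⌊α j ^ c⌋)`.
-/

set_option autoImplicit false

namespace Pool.Agent.Results.MP_03ef3d_ag.SparseDoubleCovers

open Filter Topology
open Pool.Agent.Results.MP_03ef3d_ag.FanoDoubleCovers (value SmoothBranch HasPoint toPtW
  aeval_zero_of cast_point)
open Pool.Agent.Results.MP_83e36b_nt.QuadraticTwists (OpenSets)
open Pool.Agent.Results.MP_83e36b_nt.SparseQuadraticTwists (count)

/-- The double cover `w² = a F(x; u, v)` has points over `ℝ` and over all `ℚ_p`. -/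
def LocallySoluble {n : ℕ} (A B D : MvPolynomial (Fin (n + 1)) ℤ) (a : ℤ) : Prop :=
  HasPoint A B D a ℝ ∧ ∀ p : Nat.Primes, HasPoint A B D a ℚ_[(p : ℕ)]

/-- the whole spaces -/
def full (n : ℕ) : OpenSets n where
  re := Set.univ
  pa := fun _ => Set.univ
  isOpen_re := isOpen_univ
  isOpen_pa := fun _ => isOpen_univ
  nonempty_re := Set.univ_nonempty
  nonempty_pa := fun _ => Set.univ_nonempty
  finite := by simp

lemma count_mono {c α : ℝ} {P Q : ℤ → Prop} (h : ∀ a, a ≠ 0 → P a → Q a) (N : ℕ) :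
    count c α P N ≤ count c α Q N := by
  classical
  unfold count
  refine Finset.card_le_card (fun p hp => ?_)
  rw [Finset.mem_filter] at hp ⊢
  refine ⟨hp.1, hp.2.1, h _ ?_ hp.2.2⟩
  have h1 : (⌊α * (p.1 : ℝ) ^ c⌋₊ : ℤ) ≠ 0 := by exact_mod_cast hp.2.1.ne_zero
  have h2 : p.2 ≠ 0 := by
    have := (Finset.mem_product.1 hp.1).2
    rw [Finset.mem_insert, Finset.mem_singleton] at this
    rcases this with h | h <;> rw [h] <;> norm_num
  exact mul_ne_zero h2 h1

lemma count_congr {c α : ℝ} {P Q : ℤ → Prop} (h : ∀ a, a ≠ 0 → (P a ↔ Q a)) (N : ℕ) :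
    count c α P N = count c α Q N :=
  le_antisymm (count_mono (fun a ha => (h a ha).1) N) (count_mono (fun a ha => (h a ha).2) N)

lemma conic_aux {K : Type} [Field K] {a α β γ u v : K} (ha : a ≠ 0)
    (hdisc : β ^ 2 - 4 * α * γ ≠ 0) (huv : u ≠ 0 ∨ v ≠ 0)
    (hQ : α * u ^ 2 + β * (u * v) + γ * v ^ 2 = 0) :
    ∃ u' v' : K, 1 = a * (α * u' ^ 2 + β * (u' * v') + γ * v' ^ 2) := by
  have key : ∃ p q : K, 2 * α * u * p + β * (u * q + v * p) + 2 * γ * v * q ≠ 0 := by
    by_contra hcon
    push Not at hcon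
    have h1 := hcon 1 0
    have h2 := hcon 0 1
    have hv : v = 0 := by
      have : (β ^ 2 - 4 * α * γ) * v = 0 := by linear_combination β * h1 - 2 * α * h2
      exact (mul_eq_zero.1 this).resolve_left hdisc
    have hu : u = 0 := by
      have : (β ^ 2 - 4 * α * γ) * u = 0 := by linear_combination β * h2 - 2 * γ * h1
      exact (mul_eq_zero.1 this).resolve_left hdisc
    rcases huv with h | h
    · exact h hu
    · exact h hv
  obtain ⟨p, q, hg⟩ := key
  obtain ⟨t, ht⟩ : ∃ t : K, t * (2 * α * u * p + β * (u * q + v * p) + 2 * γ * v * q) +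
      (α * p ^ 2 + β * (p * q) + γ * q ^ 2) = a⁻¹ :=
    ⟨(a⁻¹ - (α * p ^ 2 + β * (p * q) + γ * q ^ 2)) /
      (2 * α * u * p + β * (u * q + v * p) + 2 * γ * v * q), by
      rw [div_mul_cancel₀ _ hg]; ring⟩
  refine ⟨t * u + p, t * v + q, ?_⟩
  have h1 : α * (t * u + p) ^ 2 + β * ((t * u + p) * (t * v + q)) + γ * (t * v + q) ^ 2 = a⁻¹ := by
    linear_combination ht + t ^ 2 * hQ
  rw [h1, mul_inv_cancel₀ ha]

section

variable {n d : ℕ} {A B D : MvPolynomial (Fin (n + 1)) ℤ}

lemma of_twist (hd : 1 ≤ d) (hA : A.IsHomogeneous (2 * d)) (hB : B.IsHomogeneous (2 * d))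
    (hD : D.IsHomogeneous (2 * d)) {a : ℤ} {K : Type} [Field K]
    {Ω : Set ((Fin (n + 1) → K) × (Fin 2 → K))}
    (h : Pool.Agent.Results.MP_83e36b_nt.QuadraticTwists.HasPoint A B D a Ω) :
    HasPoint A B D a K := by
  obtain ⟨x, -, w, hw, h⟩ := h
  refine ⟨x.1, x.2 0, x.2 1, w, ?_, ?_, h⟩
  · intro h0
    rw [h0, aeval_zero_of hA (by omega), aeval_zero_of hB (by omega),
      aeval_zero_of hD (by omega)] at h
    apply hw
    have h1 : w ^ 2 = 0 := by rw [h]; ring
    exact pow_eq_zero_iff (two_ne_zero) |>.1 h1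
  · by_contra hcon
    push Not at hcon
    rw [hcon.1, hcon.2] at h
    apply hw
    have h1 : w ^ 2 = 0 := by rw [h]; ring
    exact pow_eq_zero_iff (two_ne_zero) |>.1 h1

lemma to_twist (hne : B ^ 2 - 4 * A * D ≠ 0) (hs : SmoothBranch A B D) {a : ℤ} (ha : a ≠ 0)
    {K : Type} [NontriviallyNormedField K] [CompleteSpace K] [CharZero K]
    (h : HasPoint A B D a K) :
    Pool.Agent.Results.MP_83e36b_nt.QuadraticTwists.HasPoint A B D a
      (Set.univ : Set ((Fin (n + 1) → K) × (Fin 2 → K))) := by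
  obtain ⟨x, -, hdisc, u, v, w, huvw, hw⟩ := toPtW hne hs ha K h
  have haK : (a : K) ≠ 0 := by exact_mod_cast ha
  by_cases hw0 : w = 0
  · have hQ : MvPolynomial.aeval x A * u ^ 2 + MvPolynomial.aeval x B * (u * v) +
        MvPolynomial.aeval x D * v ^ 2 = 0 := by
      rw [hw0] at hw
      have h1 : (a : K) * (MvPolynomial.aeval x A * u ^ 2 + MvPolynomial.aeval x B * (u * v) +
        MvPolynomial.aeval x D * v ^ 2) = 0 := by rw [← hw]; ring
      exact (mul_eq_zero.1 h1).resolve_left haK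
    have hdisc' : MvPolynomial.aeval x B ^ 2 - 4 * MvPolynomial.aeval x A *
        MvPolynomial.aeval x D ≠ 0 := by
      have e : MvPolynomial.aeval x (B ^ 2 - 4 * A * D) = MvPolynomial.aeval x B ^ 2 -
          4 * MvPolynomial.aeval x A * MvPolynomial.aeval x D := by
        rw [map_sub, map_mul, map_mul, map_pow, map_ofNat]
      rwa [e] at hdisc
    have huv : u ≠ 0 ∨ v ≠ 0 := by
      rcases huvw with h | h | h
      · exact Or.inl h
      · exact Or.inr h
      · exact absurd hw0 h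
    obtain ⟨u', v', h1⟩ := conic_aux haK hdisc' huv hQ
    exact ⟨(x, ![u', v']), Set.mem_univ _, 1, one_ne_zero, by simpa using h1⟩
  · exact ⟨(x, ![u, v]), Set.mem_univ _, w, hw0, by simpa using hw⟩

end

/-- For every real `c > 1` there are `κ > 0` and a set `E` of real numbers of Hausdorff dimension at
most `1 - κ` such that for every real `α > 0` outside `E`, all `n`, all `d` and ALL integral forms
`A`, `B`, `D` of degree `2 d` in `n + 1` variables for which the divisor
`A(x) u² + B(x) u v + D(x) v² = 0` in `ℙⁿ × ℙ¹` is smooth: a positive proportion of the double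
covers `w² = a (A(x) u² + B(x) u v + D(x) v²)`, `a = ± ⌊α j ^ c⌋` squarefree, `j ≤ N`, have points
over `ℝ` and all `ℚ_p`, and 100% of these double covers (Fano varieties if `d ≤ n`) have a rational
point. -/
theorem result (c : ℝ) (hc : 1 < c) : ∃ κ : ℝ, 0 < κ ∧ κ < 1 ∧ ∃ E : Set ℝ,
    dimH E ≤ ENNReal.ofReal (1 - κ) ∧ ∀ α : ℝ, 0 < α → α ∉ E → ∀ (n d : ℕ), 1 ≤ n → 1 ≤ d →
      ∀ A B D : MvPolynomial (Fin (n + 1)) ℤ, A.IsHomogeneous (2 * d) → B.IsHomogeneous (2 * d) →
        D.IsHomogeneous (2 * d) → SmoothBranch A B D →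
        (∃ β : ℝ, 0 < β ∧ ∀ᶠ N : ℕ in atTop, β * N ≤ (count c α (LocallySoluble A B D) N : ℝ)) ∧
        Tendsto (fun N : ℕ => (count c α (fun a => HasPoint A B D a ℚ) N : ℝ) /
          count c α (LocallySoluble A B D) N) atTop (𝓝 1) := by
  classical
  obtain ⟨κ, hκ0, hκ1, H⟩ := Pool.Agent.Results.MP_83e36b_nt.SparseQuadraticTwists.result c hc
  choose E hE hH using fun n => H n (full n)
  refine ⟨κ, hκ0, hκ1, ⋃ n, E n, ?_, ?_⟩
  · rw [dimH_iUnion]
    exact iSup_le hE
  intro α hα hαE n d hn hd A B D hA hB hD hs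
  have hαn : α ∉ E n := fun h => hαE (Set.mem_iUnion.2 ⟨n, h⟩)
  have hsq : Squarefree (MvPolynomial.map (Int.castRingHom ℚ) (B ^ 2 - 4 * A * D)) :=
    Pool.Agent.W168.HB.smsqd_ n d d A B D hn hA (by rwa [two_mul] at hB) hD (by omega)
      (fun K _ _ x u v => hs K x u v)
  have hne : B ^ 2 - 4 * A * D ≠ 0 := by
    intro h
    rw [h, map_zero] at hsq
    exact hsq.ne_zero rfl
  obtain ⟨⟨β, hβ, h1⟩, h2⟩ := hH n α hα hαn d d A B D hA (by rwa [two_mul] at hB) hD (by omega) hsq
  have hLoc : ∀ N, count c α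
      (Pool.Agent.Results.MP_83e36b_nt.SparseQuadraticTwists.Loc A B D (full n)) N =
      count c α (LocallySoluble A B D) N := by
    refine count_congr (fun a ha => ⟨fun h => ⟨of_twist hd hA hB hD h.1,
      fun p => of_twist hd hA hB hD (h.2 p)⟩, fun h => ⟨to_twist hne hs ha h.1,
      fun p => to_twist hne hs ha (h.2 p)⟩⟩)
  have hG1 : ∀ N, count c α
      (Pool.Agent.Results.MP_83e36b_nt.SparseQuadraticTwists.Glo A B D (full n)) N ≤
      count c α (fun a => HasPoint A B D a ℚ) N :=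
    count_mono (fun a _ h => of_twist hd hA hB hD h)
  have hG2 : ∀ N, count c α (fun a => HasPoint A B D a ℚ) N ≤
      count c α (LocallySoluble A B D) N :=
    count_mono (fun a _ h => ⟨cast_point ℝ h, fun p => cast_point _ h⟩)
  refine ⟨⟨β, hβ, ?_⟩, ?_⟩
  · filter_upwards [h1] with N hN
    rwa [hLoc] at hN
  · refine tendsto_of_tendsto_of_tendsto_of_le_of_le h2 tendsto_const_nhds (fun N => ?_)
      (fun N => ?_)
    · show (count c α (Pool.Agent.Results.MP_83e36b_nt.SparseQuadraticTwists.Glo A B D (full n)) N :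
        ℝ) / count c α
        (Pool.Agent.Results.MP_83e36b_nt.SparseQuadraticTwists.Loc A B D (full n)) N ≤
        (count c α (fun a => HasPoint A B D a ℚ) N : ℝ) / count c α (LocallySoluble A B D) N
      rw [hLoc]
      exact div_le_div_of_nonneg_right (by exact_mod_cast hG1 N) (Nat.cast_nonneg _)
    · show (count c α (fun a => HasPoint A B D a ℚ) N : ℝ) / count c α (LocallySoluble A B D) N ≤ 1
      exact div_le_one_of_le₀ (by exact_mod_cast hG2 N) (Nat.cast_nonneg _)

end Pool.Agent.Results.MP_03ef3d_ag.SparseDoubleCovers
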