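import Pool.Agent.Results.MP_03ef3d_ag.FanoDoubleCovers
import Pool.Agent.X67.GD.One

/-!
# The Hasse principle for ALL the twists, near generic dilates, of ALL the smooth double covers of `ℙⁿ × ℙ¹` at once

Let `L_k` be real numbers (for example `L_k = k`). There are numbers `g_k` such that for every sequence `v_k ≥ g_k` and
almost all real `α`: for ALL `n, d ≥ 1` and ALL forms `F(x; u, v) = A(x) u² + B(x) u v + D(x) v²` of bidegree `(2 d, 2)`
with integral coefficients such that the divisor `F = 0` in `ℙⁿ × ℙ¹` is smooth, for all large `k`, ALL the squarefree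
integers `a` with `|a - v_k α| ≤ L_k` for which the double cover `X_a : w² = a F(x; u, v)` has points everywhere locally
are such that `X_a` has a rational point. For `d ≤ n` the `X_a` are Fano varieties.

In the starting result `FanoDoubleCovers` this holds, for given `F`, for 100% of the squarefree integers `a` with `X_a`
everywhere locally soluble; the exceptions could meet each of the intervals. Proof: Borel-Cantelli.
-/

set_option autoImplicit false

namespace Pool.Agent.Results.MP_03ef3d_ag.TwistsNearGenericDilates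

open Filter MeasureTheory
open Pool.Agent.X67.GD (AllNearInt DensityOne)
open FanoDoubleCovers (HasPoint SmoothBranch value)

/-- the double cover `w² = a F(x; u, v)` of `ℙⁿ × ℙ¹` has a point over `ℝ` and over every `ℚ_p` -/
def LocallySoluble {n : ℕ} (A B D : MvPolynomial (Fin (n + 1)) ℤ) (a : ℤ) : Prop :=
  HasPoint A B D a ℝ ∧ ∀ p : Nat.Primes, HasPoint A B D a ℚ_[(p : ℕ)]

/-- if `a` is squarefree and the double cover has points everywhere locally, then it has a rational point -/
def HassePrinciple {n : ℕ} (A B D : MvPolynomial (Fin (n + 1)) ℤ) (a : ℤ) : Prop :=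
  Squarefree a ∧ LocallySoluble A B D a → HasPoint A B D a ℚ

theorem density (n d : ℕ) (hn : 1 ≤ n) (hd : 1 ≤ d) (A B D : MvPolynomial (Fin (n + 1)) ℤ)
    (hA : A.IsHomogeneous (2 * d)) (hB : B.IsHomogeneous (2 * d)) (hD : D.IsHomogeneous (2 * d))
    (hs : SmoothBranch A B D) : DensityOne (fun w : Fin 1 → ℤ => HassePrinciple A B D (w 0)) := by
  obtain ⟨-, h⟩ := FanoDoubleCovers.result n d hn hd A B D hA hB hD hs
  refine Pool.Agent.X67.GD.densityOne_of_ratio (F := ℤ) (fun w : Fin 1 → ℤ => w 0) (fun w w' hw => ?_)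
    (fun H => {a : ℤ | |a| ≤ (H : ℤ)}) (fun H => ?_)
    (fun _ a => Squarefree a ∧ HasPoint A B D a ℚ) (fun a => HasPoint A B D a ℚ)
    (fun a => Squarefree a ∧ LocallySoluble A B D a)
    (fun H a _ ha => ⟨ha.1, FanoDoubleCovers.cast_point ℝ ha.2, fun p => FanoDoubleCovers.cast_point _ ha.2⟩)
    (Eventually.of_forall fun H a _ ha => ha.2) h
  · funext i
    rw [Subsingleton.elim i 0]
    exact hw
  · ext a
    constructor
    · intro ha
      exact ⟨fun _ => a, fun _ => ha, rfl⟩
    · rintro ⟨w, hw, rfl⟩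
      exact hw 0

/-- the data `(n, d, A, B, D)` -/
abbrev Data : Type := Σ n : ℕ, ℕ × MvPolynomial (Fin (n + 1)) ℤ × MvPolynomial (Fin (n + 1)) ℤ ×
  MvPolynomial (Fin (n + 1)) ℤ

/-- the conditions on the data -/
def Ok (x : Data) : Prop :=
  1 ≤ x.1 ∧ 1 ≤ x.2.1 ∧ x.2.2.1.IsHomogeneous (2 * x.2.1) ∧ x.2.2.2.1.IsHomogeneous (2 * x.2.1) ∧
    x.2.2.2.2.IsHomogeneous (2 * x.2.1) ∧ SmoothBranch x.2.2.1 x.2.2.2.1 x.2.2.2.2

/-- **Theorem.** Let `L_k` be real numbers. There are numbers `g_k` such that for every sequence `v` with `v_k ≥ g_k` for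
all large `k` and almost all real `α`: for ALL `n, d ≥ 1` and all forms `A, B, D` of degree `2 d` with integral
coefficients for which the divisor `A u² + B u v + D v² = 0` in `ℙⁿ × ℙ¹` is smooth, for all large `k`, ALL integers `a`
with `|a - v_k α| ≤ L_k` satisfy the Hasse principle: if `a` is squarefree and the double cover
`w² = a (A u² + B u v + D v²)` has points over the real numbers and over all the `p`-adic fields, then it has a rational
point. -/
theorem result (L : ℕ → ℝ) : ∃ g : ℕ → ℝ, ∀ v : ℕ → ℝ, (∀ᶠ k in atTop, g k ≤ v k) → ∀ᵐ α : ℝ,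
    ∀ (n d : ℕ), 1 ≤ n → 1 ≤ d → ∀ A B D : MvPolynomial (Fin (n + 1)) ℤ, A.IsHomogeneous (2 * d) →
      B.IsHomogeneous (2 * d) → D.IsHomogeneous (2 * d) → SmoothBranch A B D →
        AllNearInt (HassePrinciple A B D) L v α := by
  haveI : Countable Data := inferInstance
  obtain ⟨g, hg⟩ := Pool.Agent.X67.GD.exists_gauge_int (ι := {x : Data // Ok x})
    (fun x a => HassePrinciple x.1.2.2.1 x.1.2.2.2.1 x.1.2.2.2.2 a)
    (fun x => density x.1.1 x.1.2.1 x.2.1 x.2.2.1 x.1.2.2.1 x.1.2.2.2.1 x.1.2.2.2.2 x.2.2.2.1 x.2.2.2.2.1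
      x.2.2.2.2.2.1 x.2.2.2.2.2.2) L
  refine ⟨g, fun v hv => ?_⟩
  filter_upwards [hg v hv] with α hα n d hn hd A B D hA hB hD hs
  exact hα ⟨⟨n, d, A, B, D⟩, hn, hd, hA, hB, hD, hs⟩

end Pool.Agent.Results.MP_03ef3d_ag.TwistsNearGenericDilates
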